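import Pool.Agent.LAT.StmtsM

/-!
# Row DMO of squad LAT: monotonicity of the determinant
-/

set_option autoImplicit false

open Matrix

open scoped MatrixOrder ComplexOrder

namespace Pool.Agent.LAT.H81

open Pool.Agent.LAT

/-- `det (1 + P) ≥ 1` for positive semidefinite `P` -/
theorem one_le_det_one_add {m : ℕ} {P : Matrix (Fin m) (Fin m) ℝ} (hP : P.PosSemidef) :
    1 ≤ (1 + P).det := by
  classical
  have hS := (hP.1).spectral_theorem
  obtain ⟨V, hV⟩ : ∃ V : Matrix (Fin m) (Fin m) ℝ,
      V = ((hP.1).eigenvectorUnitary : Matrix (Fin m) (Fin m) ℝ) := ⟨_, rfl⟩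
  have hV1 : V * star V = 1 := by
    rw [hV]
    exact Unitary.coe_mul_star_self (hP.1).eigenvectorUnitary
  have hV2 : star V * V = 1 := by
    rw [hV]
    exact Unitary.coe_star_mul_self (hP.1).eigenvectorUnitary
  have h1 : P = V * diagonal (hP.1).eigenvalues * star V := by
    have := hS
    rw [Unitary.conjStarAlgAut_apply] at this
    rw [hV]
    exact this
  have h2 : 1 + P = V * diagonal (fun i => 1 + (hP.1).eigenvalues i) * star V := by
    have e : diagonal (fun i => 1 + (hP.1).eigenvalues i) =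
        (1 : Matrix (Fin m) (Fin m) ℝ) + diagonal (hP.1).eigenvalues := by
      rw [← diagonal_one, diagonal_add]
    rw [e, mul_add, add_mul, mul_one, hV1, ← h1]
  have h3 : (1 + P).det = ∏ i, (1 + (hP.1).eigenvalues i) := by
    rw [h2, det_mul, det_mul, det_diagonal, mul_comm V.det, mul_assoc, ← det_mul, hV1, det_one,
      mul_one]
  rw [h3]
  have h4 : ∀ i ∈ (Finset.univ : Finset (Fin m)), (1 : ℝ) ≤ 1 + (hP.1).eigenvalues i := by
    intro i _
    have := hP.eigenvalues_nonneg i
    linarith
  calc (1 : ℝ) = ∏ _i : Fin m, (1 : ℝ) := by rw [Finset.prod_const_one]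
    _ ≤ ∏ i, (1 + (hP.1).eigenvalues i) :=
        Finset.prod_le_prod (fun _ _ => zero_le_one) h4

theorem dmo : DmoStmt := by
  intro m A B hA hC
  obtain ⟨R, hR⟩ := CStarAlgebra.nonneg_iff_eq_star_mul_self.mp hA.posSemidef.nonneg
  have hdet : A.det = R.det * R.det := by
    rw [hR, det_mul]
    have : (star R).det = R.det := by
      rw [star_eq_conjTranspose, det_conjTranspose]
      rfl
    rw [this]
  have hApos := hA.det_pos
  have hRdet : R.det ≠ 0 := by
    intro h0
    rw [hdet, h0, mul_zero] at hApos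
    exact lt_irrefl _ hApos
  have hu : IsUnit R.det := isUnit_iff_ne_zero.2 hRdet
  obtain ⟨P, hP⟩ : ∃ P, P = (R⁻¹)ᴴ * (B - A) * R⁻¹ := ⟨_, rfl⟩
  have hPs : P.PosSemidef := by
    rw [hP]
    exact hC.conjTranspose_mul_mul_same R⁻¹
  have hB : B = star R * (1 + P) * R := by
    have e1 : R⁻¹ * R = 1 := nonsing_inv_mul R hu
    have e2 : star R * (R⁻¹)ᴴ = 1 := by
      rw [star_eq_conjTranspose, ← conjTranspose_mul, e1, conjTranspose_one]
    calc B = A + (B - A) := by abel
      _ = star R * R + (star R * (R⁻¹)ᴴ) * (B - A) * (R⁻¹ * R) := by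
          rw [e1, e2, one_mul, mul_one, ← hR]
      _ = star R * (1 + P) * R := by
          rw [hP]
          noncomm_ring
  have h1 := one_le_det_one_add hPs
  have h2 : B.det = A.det * (1 + P).det := by
    have : (star R).det = R.det := by
      rw [star_eq_conjTranspose, det_conjTranspose]
      rfl
    rw [hB, det_mul, det_mul, this, hdet]
    ring
  rw [h2]
  have h3 := mul_le_mul_of_nonneg_left h1 hApos.le
  rwa [mul_one] at h3

end Pool.Agent.LAT.H81
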