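import Pool.Agent.LAT.StmtsC

/-!
# Row EVU of squad LAT: chains above `M`
-/

set_option autoImplicit false

open Matrix

namespace Pool.Agent.LAT.H81

open Pool.Agent.LAT

theorem evu (hPhs : PhsStmt) (hPhf : PhfStmt) (hPar : ParStmt) : EvuStmt := by
  intro m L D M hML hM1
  obtain ⟨-, h0, -, hsub⟩ := hPhs m D
  obtain ⟨U, hU⟩ : ∃ U, U = US L D M := ⟨_, rfl⟩
  have hmem : ∀ N, N ∈ U ↔ M < N ∧ N ≤ L ∧ ph D M ≤ ph D N := by
    intro N
    rw [hU]
    exact Iff.rfl
  have hUf : U.Finite := by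
    apply (hPhf m L D).subset
    intro N hN
    obtain ⟨_, h2, h3⟩ := (hmem N).1 hN
    exact ⟨h2, hM1.trans h3⟩
  rw [← hU]
  by_cases hne : U = ∅
  · refine ⟨?_, Or.inl hne⟩
    apply (Set.finite_singleton ([] : List (Submodule ℤ (Fin m → ℤ)))).subset
    rintro l ⟨hl, -⟩
    rw [Set.mem_singleton_iff]
    apply List.eq_nil_iff_forall_not_mem.2
    intro x hx
    have h1 := hl x hx
    rw [hne] at h1
    exact h1
  · obtain ⟨T, hT, hTmax⟩ := Set.exists_max_image U (ph D) hUf (Set.nonempty_iff_ne_empty.2 hne)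
    obtain ⟨hT1, hT2, hT3⟩ := (hmem T).1 hT
    have hsup : ∀ N ∈ U, N ⊔ T ∈ U := by
      intro N hN
      obtain ⟨hN1, hN2, hN3⟩ := (hmem N).1 hN
      rw [hmem]
      refine ⟨hN1.trans_le le_sup_left, sup_le hN2 hT2, ?_⟩
      have hI : ph D (N ⊓ T) ≤ ph D T := by
        have hle : M ≤ N ⊓ T := le_inf hN1.le hT1.le
        rcases hle.eq_or_lt with h | h
        · rw [← h]
          exact hT3
        · by_cases h2 : ph D M ≤ ph D (N ⊓ T)
          · exact hTmax _ ((hmem _).2 ⟨h, inf_le_left.trans hN2, h2⟩)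
          · push Not at h2
            exact h2.le.trans hT3
      have h3 := hsub N T
      have h4 : ph D (N ⊓ T) * ph D (N ⊔ T) ≤ ph D T * ph D (N ⊔ T) :=
        mul_le_mul_of_nonneg_right hI (h0 _)
      have hTpos : 0 < ph D T := lt_of_lt_of_le zero_lt_one (hM1.trans hT3)
      have h5 : ph D T * ph D N ≤ ph D T * ph D (N ⊔ T) := by
        rw [mul_comm]
        exact h3.trans h4
      exact hN3.trans (le_of_mul_le_mul_left h5 hTpos)
    obtain ⟨hf, hodd⟩ := hPar (Submodule ℤ (Fin m → ℤ)) U hUf T hT hsup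
    refine ⟨hf, Or.inr ?_⟩
    have hins : chns U = insert [] {l : List (Submodule ℤ (Fin m → ℤ)) |
        l ≠ [] ∧ (∀ x ∈ l, x ∈ U) ∧ l.Pairwise (· < ·)} := by
      ext l
      rw [Set.mem_insert_iff]
      constructor
      · intro hl
        by_cases h : l = []
        · exact Or.inl h
        · exact Or.inr ⟨h, hl.1, hl.2⟩
      · rintro (h | h)
        · rw [h]
          exact ⟨fun x hx => absurd hx List.not_mem_nil, List.Pairwise.nil⟩
        · exact ⟨h.2.1, h.2.2⟩
    rw [hins, Set.ncard_insert_of_notMem (fun h => h.1 rfl) (hf.subset (fun l hl => hl.2))]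
    exact hodd.add_one

end Pool.Agent.LAT.H81
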